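import Pool.Agent.Helper26.LU.Goals

/-!
# Project LU: the null equations have only the zero solution (AC)
-/

namespace Pool.Agent.Helper62.LU

open Finset Pool.Agent.Helper26.LU

/-- The power sums. -/
noncomputable def PS (c d : ℂ) : ℕ → ℂ
  | 0 => 4
  | 1 => 0
  | 2 => 0
  | 3 => 3 * c
  | (w + 4) => c * PS c d (w + 1) + d * PS c d w

theorem sum_eq {c d : ℂ} {z : Fin 4 → ℂ} (h1 : ∑ j, z j = 0) (h2 : ∑ j, z j ^ 2 = 0)
    (h3 : ∑ j, z j ^ 3 = 3 * c) (h4 : ∀ j, z j ^ 4 = c * z j + d) (w : ℕ) :
    ∑ j, z j ^ w = PS c d w := by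
  induction w using Nat.strong_induction_on with
  | _ w ih =>
    match w with
    | 0 => simp [PS]
    | 1 => simp only [pow_one]; exact h1
    | 2 => exact h2
    | 3 => exact h3
    | (w + 4) =>
      have e : ∀ j, z j ^ (w + 4) = c * z j ^ (w + 1) + d * z j ^ w := by
        intro j
        rw [pow_add, h4, pow_succ]
        ring
      rw [sum_congr rfl fun j _ => e j, sum_add_distrib, ← mul_sum, ← mul_sum,
        ih (w + 1) (by omega), ih w (by omega)]
      rfl

/-- The power sums at `(1, 1)`. -/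
def qs : ℕ → ℕ
  | 0 => 4
  | 1 => 0
  | 2 => 0
  | 3 => 3
  | (w + 4) => qs (w + 1) + qs w

theorem PS_one (w : ℕ) : PS 1 1 w = (qs w : ℂ) := by
  induction w using Nat.strong_induction_on with
  | _ w ih =>
    match w with
    | 0 => simp [PS, qs]
    | 1 => simp [PS, qs]
    | 2 => simp [PS, qs]
    | 3 => simp [PS, qs]
    | (w + 4) =>
      rw [PS, qs, ih (w + 1) (by omega), ih w (by omega)]
      push_cast
      ring

theorem qs_pos (w : ℕ) (hw : 6 ≤ w) : 1 ≤ qs w := by
  induction w using Nat.strong_induction_on with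
  | _ w ih =>
    by_cases h : w < 10
    · interval_cases w <;> decide
    · obtain ⟨v, rfl⟩ : ∃ v, w = v + 4 := ⟨w - 4, by omega⟩
      rw [qs]
      have := ih v (by omega) (by omega)
      omega

theorem PS_ne {w : ℕ} (hw : w = 3 ∨ w = 4 ∨ 6 ≤ w) : PS 1 1 w ≠ 0 := by
  rw [PS_one]
  have : 1 ≤ qs w := by
    rcases hw with rfl | rfl | hw
    · decide
    · decide
    · exact qs_pos w hw
  exact_mod_cast (by omega : qs w ≠ 0)

theorem tauI_congr {N : ℕ} {a b : ℕ → Polynomial ℂ} (h : ∀ l ∈ Icc 2 N, a l = b l)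
    (y : Fin 4 → Polynomial ℂ) (k : ℕ) : tauI N a y k = tauI N b y k := by
  induction k with
  | zero => rfl
  | succ k ih =>
    rw [tauI, tauI, ih]
    congr 1
    refine sum_congr rfl fun j _ => ?_
    congr 1
    exact sum_congr rfl fun l hl => by rw [h l hl]

theorem NlX_congr {M N : ℕ} {a b : ℕ → ℂ} (h : ∀ l ∈ Icc 2 N, a l = b l) (z : Fin 4 → ℂ) :
    NlX M N a z = NlX M N b z := by
  unfold NlX Nl
  have h' : ∀ l ∈ Icc 2 N, Polynomial.C (a l) = Polynomial.C (b l) := fun l hl => by rw [h l hl]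
  have e : ∀ j, phN M N (fun l => Polynomial.C (a l)) (fun j => Polynomial.C (z j) * Polynomial.X)
      j = phN M N (fun l => Polynomial.C (b l)) (fun j => Polynomial.C (z j) * Polynomial.X) j := by
    intro j
    unfold phN
    refine sum_congr rfl fun l hl => ?_
    rw [tauI_congr h']
    beta_reduce
    rw [h l hl]
  simp only [e]

theorem NlX_zero (M N : ℕ) (z : Fin 4 → ℂ) : NlX M N (fun _ => 0) z = 0 := by
  unfold NlX Nl phN
  simp

theorem aseq_zero (l : ℕ) : aseq 0 0 l = 0 := by
  unfold aseq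
  split <;> simp

theorem final {p q : ℂ} (h1 : 112995 / 512 * p ^ 6 - 1809 / 56 * p * q ^ 2 = 0)
    (h2 : 52581069 / 71680 * p ^ 5 * q - 423 / 32 * q ^ 3 = 0) : p = 0 ∧ q = 0 := by
  by_cases hp : p = 0
  · subst hp
    refine ⟨rfl, ?_⟩
    have : q ^ 3 = 0 := by linear_combination (-(32 / 423)) * h2
    exact pow_eq_zero_iff (by norm_num) |>.1 this
  · exfalso
    have e1 : 112995 / 512 * p ^ 5 - 1809 / 56 * q ^ 2 = 0 := by
      have : p * (112995 / 512 * p ^ 5 - 1809 / 56 * q ^ 2) = 0 := by linear_combination h1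
      exact (mul_eq_zero.1 this).resolve_left hp
    by_cases hq : q = 0
    · subst hq
      have : p ^ 5 = 0 := by linear_combination (512 / 112995) * e1
      exact hp (pow_eq_zero_iff (by norm_num) |>.1 this)
    · have e2 : 52581069 / 71680 * p ^ 5 - 423 / 32 * q ^ 2 = 0 := by
        have : q * (52581069 / 71680 * p ^ 5 - 423 / 32 * q ^ 2) = 0 := by linear_combination h2
        exact (mul_eq_zero.1 this).resolve_left hq
      have e3 : (112995 / 512 * (423 / 32) - 52581069 / 71680 * (1809 / 56) : ℂ) * p ^ 5 = 0 := by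
        linear_combination (423 / 32) * e1 - (1809 / 56) * e2
      have e4 : (112995 / 512 * (423 / 32) - 52581069 / 71680 * (1809 / 56) : ℂ) ≠ 0 := by
        norm_num
      have : p ^ 5 = 0 := (mul_eq_zero.1 e3).resolve_left e4
      exact hp (pow_eq_zero_iff (by norm_num) |>.1 this)

/-- **AC.** -/
theorem gAC (h1 : G_AC1) (h2 : G_AC2) (h3 : G_AC3) : G_AC := by
  intro M N a hN hNM ha
  set b : ℕ → ℂ := fun l => if l < 2 then 0 else a l with hb
  have hba : ∀ l, 2 ≤ l → b l = a l := fun l hl => by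
    simp only [hb]
    rw [if_neg (by omega)]
  have hNb : ∀ z, NlX M N b z = NlX M N a z := fun z => NlX_congr (fun l hl => by
    rw [mem_Icc] at hl
    exact hba l hl.1) z
  set p := a 2 with hp
  set q := a 5 with hq
  have key : ∀ w, 2 ≤ w → w ≤ 15 → (∀ l < w, b l = aseq p q l) → ∀ c d : ℂ,
      -(if w = 12 then (112995 / 512 * p ^ 6 - 1809 / 56 * p * q ^ 2) * c ^ 4
    else if w = 15 then (52581069 / 71680 * p ^ 5 * q - 423 / 32 * q ^ 3) * c ^ 5
    else 0) = (b w - aseq p q w) * PS c d w := by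
    intro w hw2 hw15 hl c d
    obtain ⟨z, z1, z2, z3, z4⟩ := h2 c d
    have e1 := h1 M N w b (aseq p q) z hw2 (by omega) hl
    rw [hNb, ha z z1 z2 w (by omega), h3 M N p q c d z hN hNM z1 z2 z3 z4 w hw15,
      sum_eq z1 z2 z3 z4] at e1
    rw [← e1, zero_sub]
  have gen : ∀ w, 2 ≤ w → w ≤ 15 → w ≠ 12 → w ≠ 15 → (w = 3 ∨ w = 4 ∨ 6 ≤ w) →
      (∀ l < w, b l = aseq p q l) → ∀ l < w + 1, b l = aseq p q l := by
    intro w hw2 hw15 n12 n15 hw hl l hlw
    rcases Nat.lt_succ_iff_lt_or_eq.1 hlw with h | rfl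
    · exact hl l h
    · have e1 := key l hw2 hw15 hl 1 1
      rw [if_neg n12, if_neg n15, neg_zero] at e1
      rcases mul_eq_zero.1 e1.symm with h | h
      · exact sub_eq_zero.1 h
      · exact absurd h (PS_ne hw)
  have ext : ∀ w, b w = aseq p q w → (∀ l < w, b l = aseq p q l) →
      ∀ l < w + 1, b l = aseq p q l := by
    intro w hw hl l hlw
    rcases Nat.lt_succ_iff_lt_or_eq.1 hlw with h | rfl
    · exact hl l h
    · exact hw
  have s2 : ∀ l < 2, b l = aseq p q l := by
    intro l hl
    interval_cases l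
    · simp [hb, aseq]
    · simp [hb, aseq]
  have s3 := ext 2 (by rw [hba 2 le_rfl]; rfl) s2
  have s4 := gen 3 (by norm_num) (by norm_num) (by norm_num) (by norm_num) (by norm_num) s3
  have s5 := gen 4 (by norm_num) (by norm_num) (by norm_num) (by norm_num) (by norm_num) s4
  have s6 := ext 5 (by rw [hba 5 (by norm_num)]; rfl) s5
  have s7 := gen 6 (by norm_num) (by norm_num) (by norm_num) (by norm_num) (by norm_num) s6
  have s8 := gen 7 (by norm_num) (by norm_num) (by norm_num) (by norm_num) (by norm_num) s7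
  have s9 := gen 8 (by norm_num) (by norm_num) (by norm_num) (by norm_num) (by norm_num) s8
  have s10 := gen 9 (by norm_num) (by norm_num) (by norm_num) (by norm_num) (by norm_num) s9
  have s11 := gen 10 (by norm_num) (by norm_num) (by norm_num) (by norm_num) (by norm_num) s10
  have s12 := gen 11 (by norm_num) (by norm_num) (by norm_num) (by norm_num) (by norm_num) s11
  -- `w = 12`
  have k1 := key 12 (by norm_num) (by norm_num) s12 0 1
  have k2 := key 12 (by norm_num) (by norm_num) s12 1 0
  rw [if_pos rfl] at k1 k2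
  simp only [PS] at k1 k2
  have b12 : b 12 = aseq p q 12 := by
    linear_combination (-(1 / 4)) * k1
  have kap : 112995 / 512 * p ^ 6 - 1809 / 56 * p * q ^ 2 = 0 := by
    rw [b12] at k2
    linear_combination (-1) * k2
  have s13 := ext 12 b12 s12
  have s14 := gen 13 (by norm_num) (by norm_num) (by norm_num) (by norm_num) (by norm_num) s13
  have s15 := gen 14 (by norm_num) (by norm_num) (by norm_num) (by norm_num) (by norm_num) s14
  -- `w = 15`
  have k3 := key 15 (by norm_num) (by norm_num) s15 1 0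
  have k4 := key 15 (by norm_num) (by norm_num) s15 1 1
  rw [if_neg (by norm_num), if_pos rfl] at k3 k4
  simp only [PS] at k3 k4
  have b15 : b 15 = aseq p q 15 := by
    linear_combination (1 / 15) * k3 - (1 / 15) * k4
  have kap' : 52581069 / 71680 * p ^ 5 * q - 423 / 32 * q ^ 3 = 0 := by
    rw [b15] at k3
    linear_combination (-1) * k3
  have s16 := ext 15 b15 s15
  obtain ⟨p0, q0⟩ := final kap kap'
  have t16 : ∀ l < 16, b l = 0 := by
    intro l hl
    rw [s16 l hl, p0, q0, aseq_zero]
  -- the rest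
  have all : ∀ w, w ≤ N → b w = 0 := by
    intro w
    induction w using Nat.strong_induction_on with
    | _ w ih =>
      intro hw
      by_cases h : w < 16
      · exact t16 w h
      · obtain ⟨z, z1, z2, z3, z4⟩ := h2 1 1
        have e1 := h1 M N w b (fun _ => 0) z (by omega) hw (fun l hl => ih l hl (by omega))
        rw [hNb, ha z z1 z2 w hw, NlX_zero, sum_eq z1 z2 z3 z4] at e1
        simp only [Polynomial.coeff_zero, sub_zero] at e1
        rcases mul_eq_zero.1 e1.symm with h' | h'
        · exact h'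
        · exact absurd h' (PS_ne (by omega))
  intro l hl hlN
  rw [← hba l hl]
  exact all l hlN

end Pool.Agent.Helper62.LU
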