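import Pool.Agent.Helper26.LU.Goals

/-!
# Project LU: integration by parts on the torus (T1a)
-/

namespace Pool.Agent.Helper62.LU

open MeasureTheory Real Pool.Agent.Helper26.LU

theorem cont_dx {f : ℝ × ℝ → ℝ} (hf : ContDiff ℝ 1 f) : Continuous (dx f) :=
  (hf.continuous_fderiv one_ne_zero).clm_apply continuous_const

theorem cont_dy {f : ℝ × ℝ → ℝ} (hf : ContDiff ℝ 1 f) : Continuous (dy f) :=
  (hf.continuous_fderiv one_ne_zero).clm_apply continuous_const

theorem dx_mul {f g : ℝ × ℝ → ℝ} (hf : ContDiff ℝ 1 f) (hg : ContDiff ℝ 1 g) (z : ℝ × ℝ) :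
    dx (fun z => f z * g z) z = f z * dx g z + g z * dx f z := by
  unfold dx
  rw [fderiv_fun_mul (hf.differentiable one_ne_zero z) (hg.differentiable one_ne_zero z)]
  rfl

theorem dy_mul {f g : ℝ × ℝ → ℝ} (hf : ContDiff ℝ 1 f) (hg : ContDiff ℝ 1 g) (z : ℝ × ℝ) :
    dy (fun z => f z * g z) z = f z * dy g z + g z * dy f z := by
  unfold dy
  rw [fderiv_fun_mul (hf.differentiable one_ne_zero z) (hg.differentiable one_ne_zero z)]
  rfl

theorem int_dx {f : ℝ × ℝ → ℝ} (hf : ContDiff ℝ 1 f) (hp : Per2 f) (y : ℝ) :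
    ∫ x in (0 : ℝ)..2 * π, dx f (x, y) = 0 := by
  have h1 : ∀ x ∈ Set.uIcc 0 (2 * π), HasDerivAt (fun x => f (x, y)) (dx f (x, y)) x := by
    intro x _
    exact (hf.differentiable one_ne_zero (x, y)).hasFDerivAt.comp_hasDerivAt x
      ((hasDerivAt_id x).prodMk (hasDerivAt_const x y))
  rw [intervalIntegral.integral_eq_sub_of_hasDerivAt h1]
  · have := (hp 0 y).1
    rw [zero_add] at this
    rw [this, sub_self]
  · exact ((cont_dx hf).comp (by fun_prop)).intervalIntegrable _ _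

theorem int_dy {f : ℝ × ℝ → ℝ} (hf : ContDiff ℝ 1 f) (hp : Per2 f) (x : ℝ) :
    ∫ y in (0 : ℝ)..2 * π, dy f (x, y) = 0 := by
  have h1 : ∀ y ∈ Set.uIcc 0 (2 * π), HasDerivAt (fun y => f (x, y)) (dy f (x, y)) y := by
    intro y _
    exact (hf.differentiable one_ne_zero (x, y)).hasFDerivAt.comp_hasDerivAt y
      ((hasDerivAt_const y x).prodMk (hasDerivAt_id y))
  rw [intervalIntegral.integral_eq_sub_of_hasDerivAt h1]
  · have := (hp x 0).2
    rw [zero_add] at this
    rw [this, sub_self]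
  · exact ((cont_dy hf).comp (by fun_prop)).intervalIntegrable _ _

theorem II_add {f g : ℝ × ℝ → ℝ} (hf : Continuous f) (hg : Continuous g) :
    ∫ x in (0 : ℝ)..2 * π, ∫ y in (0 : ℝ)..2 * π, (f (x, y) + g (x, y)) =
      (∫ x in (0 : ℝ)..2 * π, ∫ y in (0 : ℝ)..2 * π, f (x, y)) +
      ∫ x in (0 : ℝ)..2 * π, ∫ y in (0 : ℝ)..2 * π, g (x, y) := by
  have h1 : ∀ x, ∫ y in (0 : ℝ)..2 * π, (f (x, y) + g (x, y)) =
      (∫ y in (0 : ℝ)..2 * π, f (x, y)) + ∫ y in (0 : ℝ)..2 * π, g (x, y) := by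
    intro x
    exact intervalIntegral.integral_add ((hf.comp (by fun_prop)).intervalIntegrable _ _)
      ((hg.comp (by fun_prop)).intervalIntegrable _ _)
  simp only [h1]
  refine intervalIntegral.integral_add ?_ ?_
  · exact (intervalIntegral.continuous_parametric_intervalIntegral_of_continuous'
      (f := fun x y => f (x, y)) (by exact hf) 0 (2 * π)).intervalIntegrable _ _
  · exact (intervalIntegral.continuous_parametric_intervalIntegral_of_continuous'
      (f := fun x y => g (x, y)) (by exact hg) 0 (2 * π)).intervalIntegrable _ _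

theorem gT1a : G_T1a := by
  intro A B u hA hB hu pA pB pu
  have cA := cont_dx hA
  have cB := cont_dy hB
  have cux := cont_dx hu
  have cuy := cont_dy hu
  have c1 : Continuous (fun z : ℝ × ℝ => A z * dx u z + B z * dy u z) :=
    (hA.continuous.mul cux).add (hB.continuous.mul cuy)
  have c2 : Continuous (fun z : ℝ × ℝ => u z * (dx A z + dy B z)) :=
    hu.continuous.mul (cA.add cB)
  have hP : ContDiff ℝ 1 (fun z => A z * u z) := hA.mul hu
  have hQ : ContDiff ℝ 1 (fun z => B z * u z) := hB.mul hu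
  have pP : Per2 (fun z => A z * u z) := fun x y => by
    refine ⟨?_, ?_⟩
    · show A (x + 2 * π, y) * u (x + 2 * π, y) = A (x, y) * u (x, y)
      rw [(pA x y).1, (pu x y).1]
    · show A (x, y + 2 * π) * u (x, y + 2 * π) = A (x, y) * u (x, y)
      rw [(pA x y).2, (pu x y).2]
  have pQ : Per2 (fun z => B z * u z) := fun x y => by
    refine ⟨?_, ?_⟩
    · show B (x + 2 * π, y) * u (x + 2 * π, y) = B (x, y) * u (x, y)
      rw [(pB x y).1, (pu x y).1]
    · show B (x, y + 2 * π) * u (x, y + 2 * π) = B (x, y) * u (x, y)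
      rw [(pB x y).2, (pu x y).2]
  have e1 := II_add c1 c2
  have e2 := II_add (cont_dx hP) (cont_dy hQ)
  have e3 : ∫ x in (0 : ℝ)..2 * π, ∫ y in (0 : ℝ)..2 * π,
      ((A (x, y) * dx u (x, y) + B (x, y) * dy u (x, y)) +
        u (x, y) * (dx A (x, y) + dy B (x, y))) =
      ∫ x in (0 : ℝ)..2 * π, ∫ y in (0 : ℝ)..2 * π,
        (dx (fun z => A z * u z) (x, y) + dy (fun z => B z * u z) (x, y)) := by
    congr 1
    ext x
    congr 1
    ext y
    rw [dx_mul hA hu, dy_mul hB hu]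
    ring
  have e4 : ∫ x in (0 : ℝ)..2 * π, ∫ y in (0 : ℝ)..2 * π, dy (fun z => B z * u z) (x, y) = 0 := by
    simp only [int_dy hQ pQ, intervalIntegral.integral_zero]
  have e5 : ∫ x in (0 : ℝ)..2 * π, ∫ y in (0 : ℝ)..2 * π, dx (fun z => A z * u z) (x, y) = 0 := by
    have hc : Continuous (Function.uncurry fun x y => dx (fun z => A z * u z) (x, y)) :=
      cont_dx hP
    have hi : IntegrableOn (Function.uncurry fun x y => dx (fun z => A z * u z) (x, y))
        (Set.uIcc 0 (2 * π) ×ˢ Set.uIcc 0 (2 * π)) (volume.prod volume) :=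
      hc.continuousOn.integrableOn_compact (isCompact_uIcc.prod isCompact_uIcc)
    rw [MeasureTheory.intervalIntegral_intervalIntegral_swap
      (F := fun x y => dx (fun z => A z * u z) (x, y))]
    · simp only [int_dx hP pP, intervalIntegral.integral_zero]
    · exact hi.mono_set (Set.prod_mono Set.uIoc_subset_uIcc Set.uIoc_subset_uIcc)
  unfold tavg
  have e6 : (∫ x in (0 : ℝ)..2 * π, ∫ y in (0 : ℝ)..2 * π,
      (A (x, y) * dx u (x, y) + B (x, y) * dy u (x, y))) =
      -∫ x in (0 : ℝ)..2 * π, ∫ y in (0 : ℝ)..2 * π, u (x, y) * (dx A (x, y) + dy B (x, y)) := by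
    linarith
  rw [e6, neg_div]

end Pool.Agent.Helper62.LU
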